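import Pool.Agent.Helper41.Perm.Seq

/-!
# Number of kept items and number of outcomes
-/

set_option autoImplicit false

namespace Pool.Agent.Helper41.Perm

open Finset

/-- number of selections that vanish on a given set -/
theorem zero_count {N q : ℕ} (K : Finset (Fin N)) :
    (Finset.univ.filter (fun ω : Fin N → Fin (q + 1) => ∀ k ∈ K, ω k = 0)).card *
      (q + 1) ^ K.card = (q + 1) ^ N := by
  have h1 : Finset.univ.filter (fun ω : Fin N → Fin (q + 1) => ∀ k ∈ K, ω k = 0) =
      Fintype.piFinset (fun i => if i ∈ K then {0} else Finset.univ) := by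
    ext ω
    rw [Finset.mem_filter, Fintype.mem_piFinset]
    constructor
    · rintro ⟨-, h⟩ i
      by_cases hi : i ∈ K
      · simp [hi, h i hi]
      · simp [hi]
    · intro h
      refine ⟨Finset.mem_univ _, fun k hk => ?_⟩
      have := h k
      simpa [hk] using this
  rw [h1, Fintype.card_piFinset]
  have h2 : ∀ i : Fin N, (if i ∈ K then ({0} : Finset (Fin (q + 1))) else Finset.univ).card =
      if i ∈ K then 1 else q + 1 := by
    intro i
    by_cases hi : i ∈ K <;> simp [hi]
  rw [Finset.prod_congr rfl (fun i _ => h2 i), Finset.prod_ite, Finset.prod_const_one, one_mul,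
    Finset.prod_const, ← pow_add]
  congr 1
  have h3 : (Finset.univ.filter (fun i => i ∉ K)).card = N - K.card := by
    rw [← Finset.compl_filter, Finset.card_compl, Fintype.card_fin]
    congr 2
    ext i; simp
  rw [h3]
  have := K.card_le_univ
  rw [Fintype.card_fin] at this
  omega

open Classical in
/-- the probability that an item is kept -/
theorem kept_count {N q D : ℕ} (hD : 8 * D ≤ q + 1) (conf : Fin N → Fin N → Prop)
    (hD2 : ∀ i, (Finset.univ.filter (fun j => conf i j)).card ≤ D) (i : Fin N) :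
    7 / 8 * ((q : ℝ) + 1) ^ N / (q + 1) ≤
      ((Finset.univ.filter (fun ω : Fin N → Fin (q + 1) => Kept conf ω i)).card : ℝ) := by
  have hq : (0 : ℝ) < q + 1 := by positivity
  have h1 : (Finset.univ.filter (fun ω : Fin N → Fin (q + 1) => ∀ k ∈ ({i} : Finset (Fin N)),
      ω k = 0)).card ≤ (Finset.univ.filter (fun ω : Fin N → Fin (q + 1) => Kept conf ω i)).card +
      ∑ j ∈ Finset.univ.filter (fun j => conf i j ∧ j ≠ i),
        (Finset.univ.filter (fun ω : Fin N → Fin (q + 1) => ∀ k ∈ ({i, j} : Finset (Fin N)),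
          ω k = 0)).card := by
    refine le_trans (Finset.card_le_card ?_) ((Finset.card_union_le _ _).trans
      (Nat.add_le_add_left Finset.card_biUnion_le _))
    intro ω hω
    rw [Finset.mem_filter] at hω
    have h0 : ω i = 0 := hω.2 i (Finset.mem_singleton_self i)
    rw [Finset.mem_union]
    by_cases hb : Blocked conf ω i
    · right
      obtain ⟨j, hj, hc, hj0⟩ := hb
      rw [Finset.mem_biUnion]
      refine ⟨j, Finset.mem_filter.2 ⟨Finset.mem_univ _, hc, hj.ne⟩,
        Finset.mem_filter.2 ⟨Finset.mem_univ _, ?_⟩⟩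
      intro k hk
      rcases Finset.mem_insert.1 hk with rfl | hk
      · exact h0
      · rw [Finset.mem_singleton.1 hk]; exact hj0
    · left
      exact Finset.mem_filter.2 ⟨Finset.mem_univ _, h0, hb⟩
  have h2 : ((Finset.univ.filter (fun ω : Fin N → Fin (q + 1) => ∀ k ∈ ({i} : Finset (Fin N)),
      ω k = 0)).card : ℝ) = ((q : ℝ) + 1) ^ N / (q + 1) := by
    rw [eq_div_iff hq.ne']
    have := zero_count (q := q) ({i} : Finset (Fin N))
    rw [Finset.card_singleton, pow_one] at this
    exact_mod_cast this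
  have h3 : ∀ j ∈ Finset.univ.filter (fun j => conf i j ∧ j ≠ i),
      ((Finset.univ.filter (fun ω : Fin N → Fin (q + 1) => ∀ k ∈ ({i, j} : Finset (Fin N)),
          ω k = 0)).card : ℝ) = ((q : ℝ) + 1) ^ N / (q + 1) ^ 2 := by
    intro j hj
    rw [eq_div_iff (by positivity)]
    have := zero_count (q := q) ({i, j} : Finset (Fin N))
    rw [Finset.card_pair (Finset.mem_filter.1 hj).2.2.symm] at this
    exact_mod_cast this
  have h4 : ((Finset.univ.filter (fun j => conf i j ∧ j ≠ i)).card : ℝ) ≤ D := by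
    have h5 : (Finset.univ.filter (fun j => conf i j ∧ j ≠ i)).card ≤
        (Finset.univ.filter (fun j => conf i j)).card := by
      apply Finset.card_le_card
      intro j hj
      rw [Finset.mem_filter] at hj ⊢
      exact ⟨hj.1, hj.2.1⟩
    exact_mod_cast h5.trans (hD2 i)
  have h5 : ((q : ℝ) + 1) ^ N / (q + 1) ≤
      ((Finset.univ.filter (fun ω : Fin N → Fin (q + 1) => Kept conf ω i)).card : ℝ) +
      D * (((q : ℝ) + 1) ^ N / (q + 1) ^ 2) := by
    have h1' := (Nat.cast_le (α := ℝ)).2 h1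
    rw [Nat.cast_add, Nat.cast_sum, Finset.sum_congr rfl h3, Finset.sum_const, nsmul_eq_mul,
      h2] at h1'
    have h6 : (0 : ℝ) ≤ ((q : ℝ) + 1) ^ N / (q + 1) ^ 2 := by positivity
    have := mul_le_mul_of_nonneg_right h4 h6
    linarith
  have h6 : (8 : ℝ) * D ≤ q + 1 := by exact_mod_cast hD
  have h7 : D * (((q : ℝ) + 1) ^ N / (q + 1) ^ 2) ≤ 1 / 8 * (((q : ℝ) + 1) ^ N / (q + 1)) := by
    have h8 : D * (((q : ℝ) + 1) ^ N / (q + 1) ^ 2) =
        (D / (q + 1)) * (((q : ℝ) + 1) ^ N / (q + 1)) := by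
      field_simp
    rw [h8]
    apply mul_le_mul_of_nonneg_right _ (by positivity)
    rw [div_le_iff₀ hq]
    linarith
  have h8 : 7 / 8 * ((q : ℝ) + 1) ^ N / (q + 1) = 7 / 8 * (((q : ℝ) + 1) ^ N / (q + 1)) := by ring
  rw [h8]
  linarith

open Classical in
/-- many selections have many kept items -/
theorem many_kept {N q D m : ℕ} (hD : 8 * D ≤ q + 1) (conf : Fin N → Fin N → Prop)
    (hD2 : ∀ i, (Finset.univ.filter (fun j => conf i j)).card ≤ D) (hm0 : 0 < m)
    (hm : ∀ ω : Fin N → Fin (q + 1), (Finset.univ.filter (fun i => Kept conf ω i)).card ≤ m)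
    (t : ℝ) (ht0 : 0 ≤ t) (ht : t * m ≤ 7 / 8 * N / (q + 1)) :
    t / 2 * ((q : ℝ) + 1) ^ N ≤
      ((Finset.univ.filter (fun ω : Fin N → Fin (q + 1) =>
        t / 2 * m ≤ (Finset.univ.filter (fun i => Kept conf ω i)).card)).card : ℝ) := by
  have hm0' : (0 : ℝ) < m := by exact_mod_cast hm0
  have hE : 7 / 8 * ((q : ℝ) + 1) ^ N / (q + 1) * N ≤
      ∑ ω : Fin N → Fin (q + 1), ((Finset.univ.filter (fun i => Kept conf ω i)).card : ℝ) := by
    have h1 : ∑ ω : Fin N → Fin (q + 1), ((Finset.univ.filter (fun i => Kept conf ω i)).card : ℝ) =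
        ∑ i : Fin N, ((Finset.univ.filter (fun ω : Fin N → Fin (q + 1) =>
          Kept conf ω i)).card : ℝ) := by
      simp only [Finset.card_filter]
      push_cast
      rw [Finset.sum_comm]
    rw [h1]
    calc 7 / 8 * ((q : ℝ) + 1) ^ N / (q + 1) * N
        = ∑ _i : Fin N, (7 / 8 * ((q : ℝ) + 1) ^ N / (q + 1)) := by
          rw [Finset.sum_const, Finset.card_univ, Fintype.card_fin, nsmul_eq_mul]; ring
      _ ≤ _ := Finset.sum_le_sum (fun i _ => kept_count hD conf hD2 i)
  set S := Finset.univ.filter (fun ω : Fin N → Fin (q + 1) =>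
        t / 2 * m ≤ (Finset.univ.filter (fun i => Kept conf ω i)).card) with hS
  have h2 : ∑ ω : Fin N → Fin (q + 1), ((Finset.univ.filter (fun i => Kept conf ω i)).card : ℝ) ≤
      (S.card : ℝ) * m + t / 2 * m * ((q : ℝ) + 1) ^ N := by
    have h3 : ∀ ω : Fin N → Fin (q + 1), ((Finset.univ.filter (fun i => Kept conf ω i)).card : ℝ) ≤
        (if ω ∈ S then (m : ℝ) else 0) + t / 2 * m := by
      intro ω
      by_cases h : ω ∈ S
      · rw [if_pos h]
        have : ((Finset.univ.filter (fun i => Kept conf ω i)).card : ℝ) ≤ m := by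
          exact_mod_cast hm ω
        have : 0 ≤ t / 2 * m := by positivity
        linarith
      · rw [if_neg h]
        rw [hS, Finset.mem_filter, not_and] at h
        have := not_le.1 (h (Finset.mem_univ _))
        linarith
    refine (Finset.sum_le_sum (fun ω _ => h3 ω)).trans (le_of_eq ?_)
    rw [Finset.sum_add_distrib, Finset.sum_ite_mem, Finset.univ_inter, Finset.sum_const,
      Finset.sum_const, Finset.card_univ, nsmul_eq_mul, nsmul_eq_mul]
    simp
    ring
  have h4 : t * m * ((q : ℝ) + 1) ^ N ≤ 7 / 8 * ((q : ℝ) + 1) ^ N / (q + 1) * N := by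
    have h5 : 7 / 8 * ((q : ℝ) + 1) ^ N / (q + 1) * N =
        (7 / 8 * N / (q + 1)) * ((q : ℝ) + 1) ^ N := by ring
    rw [h5]
    exact mul_le_mul_of_nonneg_right ht (by positivity)
  have h6 : t / 2 * ((q : ℝ) + 1) ^ N * m ≤ (S.card : ℝ) * m := by nlinarith
  exact le_of_mul_le_mul_right h6 hm0'

open Classical in
/-- number of outcomes: `g ω` is the outcome, `Gr x` a set of at most `m` items which contains the
kept items of all selections with outcome `x` -/
theorem outcomes {N q m : ℕ} {X : Type} [Fintype X] [DecidableEq X]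
    (conf : Fin N → Fin N → Prop) (g : (Fin N → Fin (q + 1)) → X) (Gr : X → Finset (Fin N))
    (hGr : ∀ x, (Gr x).card ≤ m) (hsub : ∀ ω i, Kept conf ω i → i ∈ Gr (g ω))
    (Good : Finset (Fin N → Fin (q + 1))) (k : ℕ)
    (hk : ∀ ω ∈ Good, k ≤ (Finset.univ.filter (fun i => Kept conf ω i)).card) :
    (Good.card : ℝ) * ((q : ℝ) + 1) ^ k ≤ ((Good.image g).card : ℝ) * 2 ^ m * ((q : ℝ) + 1) ^ N := by
  have hfib : ∀ x, ((Good.filter (fun ω => g ω = x)).card : ℝ) * ((q : ℝ) + 1) ^ k ≤
      2 ^ m * ((q : ℝ) + 1) ^ N := by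
    intro x
    have h1 : Good.filter (fun ω => g ω = x) ⊆
        ((Gr x).powerset.filter (fun K => k ≤ K.card)).biUnion (fun K =>
          Finset.univ.filter (fun ω : Fin N → Fin (q + 1) => ∀ i ∈ K, ω i = 0)) := by
      intro ω hω
      rw [Finset.mem_filter] at hω
      rw [Finset.mem_biUnion]
      refine ⟨Finset.univ.filter (fun i => Kept conf ω i), ?_, ?_⟩
      · rw [Finset.mem_filter, Finset.mem_powerset]
        refine ⟨?_, hk ω hω.1⟩
        intro i hi
        rw [← hω.2]
        exact hsub ω i (Finset.mem_filter.1 hi).2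
      · rw [Finset.mem_filter]
        exact ⟨Finset.mem_univ _, fun i hi => (Finset.mem_filter.1 hi).2.1⟩
    have h2 := (Finset.card_le_card h1).trans Finset.card_biUnion_le
    have h3 : ∀ K ∈ (Gr x).powerset.filter (fun K => k ≤ K.card),
        ((Finset.univ.filter (fun ω : Fin N → Fin (q + 1) => ∀ i ∈ K, ω i = 0)).card : ℝ) *
          ((q : ℝ) + 1) ^ k ≤ ((q : ℝ) + 1) ^ N := by
      intro K hK
      have h4 := zero_count (q := q) K
      have h5 : (Finset.univ.filter (fun ω : Fin N → Fin (q + 1) => ∀ i ∈ K, ω i = 0)).card *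
          (q + 1) ^ k ≤ (q + 1) ^ N := by
        rw [← h4]
        exact Nat.mul_le_mul_left _ (Nat.pow_le_pow_right (by omega) (Finset.mem_filter.1 hK).2)
      exact_mod_cast h5
    calc ((Good.filter (fun ω => g ω = x)).card : ℝ) * ((q : ℝ) + 1) ^ k
        ≤ (∑ K ∈ (Gr x).powerset.filter (fun K => k ≤ K.card),
          ((Finset.univ.filter (fun ω : Fin N → Fin (q + 1) => ∀ i ∈ K, ω i = 0)).card : ℝ)) *
          ((q : ℝ) + 1) ^ k := by
          apply mul_le_mul_of_nonneg_right _ (by positivity)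
          exact_mod_cast h2
      _ = ∑ K ∈ (Gr x).powerset.filter (fun K => k ≤ K.card),
          ((Finset.univ.filter (fun ω : Fin N → Fin (q + 1) => ∀ i ∈ K, ω i = 0)).card : ℝ) *
          ((q : ℝ) + 1) ^ k := by rw [Finset.sum_mul]
      _ ≤ ∑ _K ∈ (Gr x).powerset.filter (fun K => k ≤ K.card), ((q : ℝ) + 1) ^ N :=
          Finset.sum_le_sum h3
      _ = (((Gr x).powerset.filter (fun K => k ≤ K.card)).card : ℝ) * ((q : ℝ) + 1) ^ N := by
          rw [Finset.sum_const, nsmul_eq_mul]
      _ ≤ 2 ^ m * ((q : ℝ) + 1) ^ N := by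
          apply mul_le_mul_of_nonneg_right _ (by positivity)
          have h6 : ((Gr x).powerset.filter (fun K => k ≤ K.card)).card ≤ 2 ^ m := by
            refine (Finset.card_filter_le _ _).trans ?_
            rw [Finset.card_powerset]
            exact Nat.pow_le_pow_right (by norm_num) (hGr x)
          exact_mod_cast h6
  have h1 : (Good.card : ℝ) = ∑ x ∈ Good.image g, ((Good.filter (fun ω => g ω = x)).card : ℝ) := by
    exact_mod_cast Finset.card_eq_sum_card_image g Good
  rw [h1, Finset.sum_mul]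
  calc ∑ x ∈ Good.image g, ((Good.filter (fun ω => g ω = x)).card : ℝ) * ((q : ℝ) + 1) ^ k
      ≤ ∑ _x ∈ Good.image g, (2 ^ m * ((q : ℝ) + 1) ^ N) := Finset.sum_le_sum (fun x _ => hfib x)
    _ = _ := by rw [Finset.sum_const, nsmul_eq_mul]; ring

end Pool.Agent.Helper41.Perm
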