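import Pool.Agent.Helper41.Perm.Seq

/-!
# Subcubes in a group of bounded exponent and the switched permutation
-/

set_option autoImplicit false

namespace Pool.Agent.Helper41.Perm

open Finset

variable {G : Type} [AddCommGroup G] [Fintype G] [DecidableEq G] {d : ℕ}

/-- the subcube of the item `a = (y, h)`: all points `y + (k_1 h, ..., k_d h)` -/
def cube (e : ℕ) (a : (Fin d → G) × G) : Finset (Fin d → G) :=
  (Finset.univ : Finset (Fin d → Fin e)).image (fun k i => a.1 i + (k i : ℕ) • a.2)

theorem card_cube_le (e : ℕ) (a : (Fin d → G) × G) : (cube e a).card ≤ e ^ d := by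
  refine Finset.card_image_le.trans ?_
  simp

theorem self_mem_cube {e : ℕ} (he : 0 < e) (a : (Fin d → G) × G) : a.1 ∈ cube e a := by
  rw [cube, Finset.mem_image]
  exact ⟨fun _ => ⟨0, he⟩, Finset.mem_univ _, by funext i; simp⟩

theorem shift_mem_cube {e : ℕ} (he : 0 < e) (hG : ∀ x : G, e • x = 0) {a : (Fin d → G) × G}
    {y : Fin d → G} (hy : y ∈ cube e a) (i : Fin d) :
    Function.update y i (y i + a.2) ∈ cube e a := by
  rw [cube, Finset.mem_image] at hy ⊢
  obtain ⟨k, -, hk⟩ := hy
  have hki : ∀ j, a.1 j + (k j : ℕ) • a.2 = y j := fun j => congrFun hk j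
  by_cases hlt : (k i : ℕ) + 1 < e
  · refine ⟨Function.update k i ⟨(k i : ℕ) + 1, hlt⟩, Finset.mem_univ _, ?_⟩
    funext j
    by_cases hj : j = i
    · subst hj
      simp only [Function.update_self]
      rw [← hki j, succ_nsmul]
      abel
    · simp only [Function.update_of_ne hj]
      exact hki j
  · have hke : (k i : ℕ) + 1 = e := by
      have := (k i).2
      omega
    refine ⟨Function.update k i ⟨0, he⟩, Finset.mem_univ _, ?_⟩
    funext j
    by_cases hj : j = i
    · subst hj
      simp only [Function.update_self]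
      rw [← hki j, add_assoc, ← succ_nsmul, hke, hG]
      simp
    · simp only [Function.update_of_ne hj]
      exact hki j

theorem card_conf_le (e : ℕ) (b : (Fin d → G) × G) :
    (Finset.univ.filter (fun a : (Fin d → G) × G => ¬ Disjoint (cube e a) (cube e b))).card ≤
      e ^ d * (Fintype.card G * e ^ d) := by
  have h1 : Finset.univ.filter (fun a : (Fin d → G) × G => ¬ Disjoint (cube e a) (cube e b)) ⊆
      ((cube e b) ×ˢ ((Finset.univ : Finset G) ×ˢ (Finset.univ : Finset (Fin d → Fin e)))).image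
        (fun t => ((fun i => t.1 i - (t.2.2 i : ℕ) • t.2.1), t.2.1)) := by
    intro a ha
    rw [Finset.mem_filter] at ha
    obtain ⟨y, hya, hyb⟩ := Finset.not_disjoint_iff.1 ha.2
    rw [cube, Finset.mem_image] at hya
    obtain ⟨k, -, hk⟩ := hya
    rw [Finset.mem_image]
    refine ⟨(y, a.2, k), by simp [hyb], ?_⟩
    refine Prod.ext ?_ rfl
    funext i
    have := congrFun hk i
    simp only at this ⊢
    rw [← this]
    abel
  refine (Finset.card_le_card h1).trans (Finset.card_image_le.trans ?_)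
  rw [Finset.card_product, Finset.card_product]
  simp only [Finset.card_univ, Fintype.card_pi, Fintype.card_fin, Finset.prod_const]
  exact Nat.mul_le_mul_right _ (card_cube_le e b)

/-- conflicts of items -/
def conf (e : ℕ) {N : ℕ} (φ : (Fin d → G) × G ≃ Fin N) (i j : Fin N) : Prop :=
  ¬ Disjoint (cube e (φ.symm i)) (cube e (φ.symm j))

theorem conf_symm (e : ℕ) {N : ℕ} (φ : (Fin d → G) × G ≃ Fin N) (i j : Fin N) :
    conf e φ i j ↔ conf e φ j i := by
  unfold conf; rw [disjoint_comm]

open Classical in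
theorem card_conf (e : ℕ) {N : ℕ} (φ : (Fin d → G) × G ≃ Fin N) (i : Fin N) :
    (Finset.univ.filter (fun j => conf e φ i j)).card ≤ e ^ d * (Fintype.card G * e ^ d) := by
  refine le_trans ?_ (card_conf_le e (φ.symm i))
  apply Finset.card_le_card_of_injOn φ.symm
  · intro j hj
    have hj' := (Finset.mem_filter.1 hj).2
    refine Finset.mem_filter.2 ⟨Finset.mem_univ _, ?_⟩
    exact (conf_symm e φ i j).1 hj'
  · exact φ.symm.injective.injOn

theorem kept_unique {e N q : ℕ} (φ : (Fin d → G) × G ≃ Fin N) {ω : Fin N → Fin (q + 1)}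
    {i j : Fin N} (hi : Kept (conf e φ) ω i) (hj : Kept (conf e φ) ω j) {y : Fin d → G}
    (hyi : y ∈ cube e (φ.symm i)) (hyj : y ∈ cube e (φ.symm j)) : i = j := by
  rcases lt_trichotomy i j with h | h | h
  · exact absurd ⟨i, h, Finset.not_disjoint_iff.2 ⟨y, hyj, hyi⟩, hi.1⟩ hj.2
  · exact h
  · exact absurd ⟨j, h, Finset.not_disjoint_iff.2 ⟨y, hyi, hyj⟩, hj.1⟩ hi.2

open Classical in
/-- the displacement -/
noncomputable def disp (e : ℕ) {N q : ℕ} (φ : (Fin d → G) × G ≃ Fin N)
    (ω : Fin N → Fin (q + 1)) (y : Fin d → G) : G :=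
  if h : ∃ i, Kept (conf e φ) ω i ∧ y ∈ cube e (φ.symm i) then (φ.symm h.choose).2 else 0

theorem disp_eq {e N q : ℕ} (φ : (Fin d → G) × G ≃ Fin N) {ω : Fin N → Fin (q + 1)}
    {i : Fin N} (hi : Kept (conf e φ) ω i) {y : Fin d → G} (hy : y ∈ cube e (φ.symm i)) :
    disp e φ ω y = (φ.symm i).2 := by
  unfold disp
  have h : ∃ i, Kept (conf e φ) ω i ∧ y ∈ cube e (φ.symm i) := ⟨i, hi, hy⟩
  rw [dif_pos h, kept_unique φ h.choose_spec.1 hi h.choose_spec.2 hy]

theorem disp_shift {e N q : ℕ} (he : 0 < e) (hG : ∀ x : G, e • x = 0)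
    (φ : (Fin d → G) × G ≃ Fin N) (ω : Fin N → Fin (q + 1)) (y : Fin d → G) (i : Fin d) :
    disp e φ ω (Function.update y i (y i + disp e φ ω y)) = disp e φ ω y := by
  by_cases h : ∃ j, Kept (conf e φ) ω j ∧ y ∈ cube e (φ.symm j)
  · obtain ⟨j, hj, hy⟩ := h
    have h1 := disp_eq φ hj hy
    rw [h1]
    exact disp_eq φ hj (shift_mem_cube he hG hy i)
  · have h1 : disp e φ ω y = 0 := by unfold disp; rw [dif_neg h]
    rw [h1, add_zero, Function.update_eq_self, h1]

/-- the switched quasigroup operation -/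
noncomputable def op (e : ℕ) {N q : ℕ} (φ : (Fin d → G) × G ≃ Fin N)
    (ω : Fin N → Fin (q + 1)) (y : Fin d → G) : G := (∑ i, y i) + disp e φ ω y

theorem sum_update (y : Fin d → G) (i : Fin d) (v : G) :
    ∑ j, Function.update y i v j = v + ∑ j ∈ Finset.univ.erase i, y j := by
  rw [← Finset.add_sum_erase _ _ (Finset.mem_univ i), Function.update_self]
  congr 1
  refine Finset.sum_congr rfl (fun j hj => ?_)
  rw [Function.update_of_ne (Finset.ne_of_mem_erase hj)]

theorem op_inj {e N q : ℕ} (he : 0 < e) (hG : ∀ x : G, e • x = 0)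
    (φ : (Fin d → G) × G ≃ Fin N) (ω : Fin N → Fin (q + 1)) (y : Fin d → G) (i : Fin d) :
    Function.Injective (fun v => op e φ ω (Function.update y i v)) := by
  intro v w hvw
  simp only [op, sum_update] at hvw
  set a := disp e φ ω (Function.update y i v) with ha
  set b := disp e φ ω (Function.update y i w) with hb
  have h1 : v + a = w + b := by
    have h2 : (v + a) + ∑ j ∈ Finset.univ.erase i, y j =
        (w + b) + ∑ j ∈ Finset.univ.erase i, y j := by
      rw [add_right_comm, add_right_comm w]; exact hvw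
    exact add_right_cancel h2
  have h2 := disp_shift he hG φ ω (Function.update y i v) i
  have h3 := disp_shift he hG φ ω (Function.update y i w) i
  rw [Function.update_self, Function.update_idem, ← ha, h1] at h2
  rw [Function.update_self, Function.update_idem, ← hb] at h3
  have h4 : a = b := h2.symm.trans h3
  rw [h4] at h1
  exact add_right_cancel h1

/-- the kept item determines the value -/
theorem op_eq {e N q : ℕ} (he : 0 < e) (φ : (Fin d → G) × G ≃ Fin N)
    {ω : Fin N → Fin (q + 1)} {i : Fin N} (hi : Kept (conf e φ) ω i) :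
    op e φ ω (φ.symm i).1 = (∑ j, (φ.symm i).1 j) + (φ.symm i).2 := by
  rw [op, disp_eq φ hi (self_mem_cube he _)]

/-- kept items lie on the graph of the displacement -/
theorem kept_graph {e N q : ℕ} (he : 0 < e) (φ : (Fin d → G) × G ≃ Fin N)
    {ω : Fin N → Fin (q + 1)} {i : Fin N} (hi : Kept (conf e φ) ω i) :
    disp e φ ω (φ.symm i).1 = (φ.symm i).2 := disp_eq φ hi (self_mem_cube he _)

end Pool.Agent.Helper41.Perm
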