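import Mathlib

/-!
# Definitions: high-dimensional permutations and empty boxes
-/

set_option autoImplicit false

namespace Pool.Agent.Helper41.Perm

/-- `A : [n]^(d+1) → {0, 1}` is a `d`-dimensional permutation of order `n`: every line contains
exactly one `1`. -/
def IsPerm {d n : ℕ} (A : (Fin (d + 1) → Fin n) → Bool) : Prop :=
  ∀ (i : Fin (d + 1)) (α : Fin (d + 1) → Fin n), ∃! x : Fin n, A (Function.update α i x) = true

/-- The box `T 0 × ... × T d` is empty in `A`. -/
def BoxEmpty {d n : ℕ} (A : (Fin (d + 1) → Fin n) → Bool) (T : Fin (d + 1) → Finset (Fin n)) :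
    Prop :=
  ∀ α : Fin (d + 1) → Fin n, (∀ i, α i ∈ T i) → A α = false

open Classical in
/-- `ε(A)`: the maximum volume of an empty box in `A`. -/
noncomputable def eps {d n : ℕ} (A : (Fin (d + 1) → Fin n) → Bool) : ℕ :=
  (Finset.univ.filter (fun T : Fin (d + 1) → Finset (Fin n) => BoxEmpty A T)).sup
    (fun T => ∏ i, (T i).card)

end Pool.Agent.Helper41.Perm
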