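import Pool.Agent.Helper41.Perm.Defs
import Pool.Agent.Helper41.Perm.Cube
import Pool.Agent.Helper41.Perm.Count

/-!
# Random switching in a group of bounded exponent
-/

set_option autoImplicit false

namespace Pool.Agent.Helper41.Perm

open Finset

variable {G : Type} [AddCommGroup G] [Fintype G] [DecidableEq G] {d n : ℕ}

/-- the array of the operation `y ↦ ∑ y_i + x y` -/
def arr (ψ : G ≃ Fin n) (x : (Fin d → G) → G) (α : Fin (d + 1) → Fin n) : Bool :=
  decide ((∑ i : Fin d, ψ.symm (α (Fin.castSucc i))) + x (fun i => ψ.symm (α (Fin.castSucc i))) =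
    ψ.symm (α (Fin.last d)))

/-- the position with cell `y` and value `z` -/
def pos (ψ : G ≃ Fin n) (y : Fin d → G) (z : G) : Fin (d + 1) → Fin n :=
  Fin.snoc (α := fun _ => Fin n) (fun i => ψ (y i)) (ψ z)

omit [Fintype G] in
theorem arr_pos (ψ : G ≃ Fin n) (x : (Fin d → G) → G) (y : Fin d → G) (z : G) :
    arr ψ x (pos ψ y z) = true ↔ (∑ i, y i) + x y = z := by
  unfold arr pos
  simp only [Fin.snoc_castSucc, Fin.snoc_last, Equiv.symm_apply_apply, decide_eq_true_eq]

omit [Fintype G] in
theorem arr_inj (ψ : G ≃ Fin n) : Function.Injective (arr (d := d) ψ) := by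
  intro x x' h
  funext y
  have h1 : arr ψ x (pos ψ y ((∑ i, y i) + x y)) = true := (arr_pos ψ x y _).2 rfl
  rw [h] at h1
  have h2 := (arr_pos ψ x' y _).1 h1
  exact (add_left_cancel h2).symm

theorem isPerm_arr {e N q : ℕ} (he : 0 < e) (hG : ∀ x : G, e • x = 0) (ψ : G ≃ Fin n)
    (φ : (Fin d → G) × G ≃ Fin N) (ω : Fin N → Fin (q + 1)) :
    IsPerm (arr ψ (disp e φ ω)) := by
  intro i α
  induction i using Fin.lastCases with
  | last =>
    refine ⟨ψ ((∑ i, ψ.symm (α (Fin.castSucc i))) +
      disp e φ ω (fun i => ψ.symm (α (Fin.castSucc i)))), ?_, ?_⟩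
    · simp only [arr, Function.update_self, Equiv.symm_apply_apply, decide_eq_true_eq]
      have : ∀ i : Fin d, Function.update α (Fin.last d) (ψ ((∑ i, ψ.symm (α (Fin.castSucc i))) +
        disp e φ ω (fun i => ψ.symm (α (Fin.castSucc i))))) (Fin.castSucc i) =
          α (Fin.castSucc i) := fun i => Function.update_of_ne (Fin.castSucc_lt_last i).ne _ _
      simp only [this]
    · intro x hx
      simp only [arr, Function.update_self, decide_eq_true_eq] at hx
      have : ∀ i : Fin d, Function.update α (Fin.last d) x (Fin.castSucc i) =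
          α (Fin.castSucc i) := fun i => Function.update_of_ne (Fin.castSucc_lt_last i).ne _ _
      simp only [this] at hx
      rw [hx, Equiv.apply_symm_apply]
  | cast j =>
    set y : Fin d → G := fun i => ψ.symm (α (Fin.castSucc i)) with hy
    have hinj := op_inj he hG φ ω y j
    have hbij : Function.Bijective (fun v => op e φ ω (Function.update y j v)) :=
      Finite.injective_iff_bijective.1 hinj
    have hval : ∀ x : Fin n, arr ψ (disp e φ ω) (Function.update α (Fin.castSucc j) x) = true ↔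
        op e φ ω (Function.update y j (ψ.symm x)) = ψ.symm (α (Fin.last d)) := by
      intro x
      have h1 : (fun i : Fin d => ψ.symm (Function.update α (Fin.castSucc j) x (Fin.castSucc i))) =
          Function.update y j (ψ.symm x) := by
        funext i
        by_cases hi : i = j
        · subst hi; simp
        · rw [Function.update_of_ne hi, Function.update_of_ne]
          intro h; exact hi (Fin.castSucc_injective _ h)
      have h2 : Function.update α (Fin.castSucc j) x (Fin.last d) = α (Fin.last d) :=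
        Function.update_of_ne (Fin.castSucc_lt_last j).ne' _ _
      simp only [arr, op, decide_eq_true_eq]
      rw [h1, h2]
    obtain ⟨v, hv⟩ := hbij.2 (ψ.symm (α (Fin.last d)))
    refine ⟨ψ v, ?_, ?_⟩
    · show arr ψ (disp e φ ω) (Function.update α (Fin.castSucc j) (ψ v)) = true
      rw [hval, Equiv.symm_apply_apply]
      exact hv
    · intro x hx
      have hx' := (hval x).1 hx
      have : ψ.symm x = v := hbij.1 (by
        simp only
        rw [hx']; exact hv.symm)
      rw [← this, Equiv.apply_symm_apply]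

/-- the items that belong to a box -/
def boxItems {N : ℕ} (ψ : G ≃ Fin n) (φ : (Fin d → G) × G ≃ Fin N)
    (T : Fin (d + 1) → Finset (Fin n)) : Finset (Fin N) :=
  (Fintype.piFinset T).image (fun α => φ ((fun i => ψ.symm (α (Fin.castSucc i))),
    ψ.symm (α (Fin.last d)) - ∑ i : Fin d, ψ.symm (α (Fin.castSucc i))))

omit [Fintype G] [DecidableEq G] in
theorem card_boxItems {N : ℕ} (ψ : G ≃ Fin n) (φ : (Fin d → G) × G ≃ Fin N)
    (T : Fin (d + 1) → Finset (Fin n)) : (boxItems ψ φ T).card = ∏ i, (T i).card := by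
  unfold boxItems
  rw [Finset.card_image_of_injective, Fintype.card_piFinset]
  intro α β h
  have h1 := φ.injective h
  have h2 := congrArg Prod.fst h1
  have h3 := congrArg Prod.snd h1
  simp only at h2 h3
  have h4 : ∀ i : Fin d, α i.castSucc = β i.castSucc := fun i =>
    ψ.symm.injective (congrFun h2 i)
  simp only [h4] at h3
  have h5 := ψ.symm.injective (sub_left_injective h3)
  funext i
  induction i using Fin.lastCases with
  | last => exact h5
  | cast j => exact h4 j

theorem not_kept_of_empty {e N q : ℕ} (he : 0 < e) (ψ : G ≃ Fin n)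
    (φ : (Fin d → G) × G ≃ Fin N) (ω : Fin N → Fin (q + 1)) (T : Fin (d + 1) → Finset (Fin n))
    (hT : BoxEmpty (arr ψ (disp e φ ω)) T) : ∀ i ∈ boxItems ψ φ T, ¬ Kept (conf e φ) ω i := by
  intro i hi hk
  obtain ⟨α, hα, rfl⟩ := Finset.mem_image.1 hi
  rw [Fintype.mem_piFinset] at hα
  have h1 := kept_graph he φ hk
  rw [Equiv.symm_apply_apply] at h1
  have h2 := hT α hα
  have h3 : arr ψ (disp e φ ω) α = true := by
    simp only [arr, decide_eq_true_eq]
    rw [h1]
    exact add_sub_cancel _ _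
  rw [h2] at h3
  exact absurd h3 (by decide)

open Classical in
theorem kept_card {e N q : ℕ} (he : 0 < e) (φ : (Fin d → G) × G ≃ Fin N)
    (ω : Fin N → Fin (q + 1)) :
    (Finset.univ.filter (fun i => Kept (conf e φ) ω i)).card ≤ Fintype.card G ^ d := by
  have h1 : (Finset.univ.filter (fun i => Kept (conf e φ) ω i)).card ≤
      (Finset.univ : Finset (Fin d → G)).card := by
    apply Finset.card_le_card_of_injOn (fun i => (φ.symm i).1) (fun _ _ => Finset.mem_univ _)
    intro i hi j hj hij
    have h2 := kept_graph he φ (Finset.mem_filter.1 hi).2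
    have h3 := kept_graph he φ (Finset.mem_filter.1 hj).2
    apply φ.symm.injective
    refine Prod.ext hij ?_
    simp only at hij
    rw [← h2, ← h3, hij]
  simpa using h1

theorem eps_le {A : (Fin (d + 1) → Fin n) → Bool} {K : ℕ}
    (h : ∀ T : Fin (d + 1) → Finset (Fin n), K < ∏ i, (T i).card → ¬ BoxEmpty A T) :
    eps A ≤ K := by
  classical
  unfold eps
  apply Finset.sup_le
  intro T hT
  by_contra hcon
  exact h T (not_le.1 hcon) (Finset.mem_filter.1 hT).2

open Classical in
/-- the probability that a large box is empty for some box -/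
theorem bad_count {e N q : ℕ} (he : 0 < e) (ψ : G ≃ Fin n) (hn : 0 < n)
    (φ : (Fin d → G) × G ≃ Fin N) (hq : q + 1 = 8 * (e ^ d * (n * e ^ d))) :
    ((Finset.univ.filter (fun ω : Fin N → Fin (q + 1) =>
      ¬ eps (arr ψ (disp e φ ω)) ≤ 16 * (e ^ d * e ^ d) * (d + 3) * n ^ 2)).card : ℝ) ≤
      2 * Real.exp (-(2 * n)) * ((q : ℝ) + 1) ^ N := by
  have hcardG : Fintype.card G = n := by rw [Fintype.card_congr ψ, Fintype.card_fin]
  set C := 16 * (e ^ d * e ^ d) * (d + 3) with hC
  set BT := Finset.univ.filter (fun T : Fin (d + 1) → Finset (Fin n) =>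
    C * n ^ 2 < ∏ i, (T i).card) with hBT
  have hsub : Finset.univ.filter (fun ω : Fin N → Fin (q + 1) =>
      ¬ eps (arr ψ (disp e φ ω)) ≤ C * n ^ 2) ⊆
      BT.biUnion (fun T => Finset.univ.filter (fun ω : Fin N → Fin (q + 1) =>
        ∀ i ∈ boxItems ψ φ T, ¬ Kept (conf e φ) ω i)) := by
    intro ω hω
    rw [Finset.mem_filter] at hω
    by_contra hcon
    apply hω.2
    apply eps_le
    intro T hT hTe
    apply hcon
    rw [Finset.mem_biUnion]
    exact ⟨T, Finset.mem_filter.2 ⟨Finset.mem_univ _, hT⟩,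
      Finset.mem_filter.2 ⟨Finset.mem_univ _, not_kept_of_empty he ψ φ ω T hTe⟩⟩
  have hD0 : 0 < e ^ d * (n * e ^ d) := by positivity
  have hbound : ∀ T ∈ BT, ((Finset.univ.filter (fun ω : Fin N → Fin (q + 1) =>
        ∀ i ∈ boxItems ψ φ T, ¬ Kept (conf e φ) ω i)).card : ℝ) ≤
      2 * (((q : ℝ) + 1) ^ N * Real.exp (-((d + 3) * n))) := by
    intro T hT
    have h1 := tail (q := q) hD0 (by omega) (conf e φ) (boxItems ψ φ T) (by
      intro j
      have h2 := card_conf e φ j
      rw [hcardG] at h2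
      refine le_trans (Finset.card_le_card ?_) h2
      intro i hi
      exact Finset.mem_filter.2 ⟨Finset.mem_univ _,
        (conf_symm e φ i j).1 (Finset.mem_filter.1 hi).2⟩) (by
      intro i
      have h2 := card_conf e φ i
      rw [hcardG] at h2
      exact h2)
    refine h1.trans ?_
    apply mul_le_mul_of_nonneg_left _ (by norm_num)
    apply mul_le_mul_of_nonneg_left _ (by positivity)
    apply Real.exp_le_exp.2
    rw [neg_le_neg_iff, le_div_iff₀ (by positivity), card_boxItems]
    have h3 : C * n ^ 2 ≤ ∏ i, (T i).card := (Finset.mem_filter.1 hT).2.le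
    have h4 : ((q : ℝ) + 1) = 8 * (e ^ d * (n * e ^ d)) := by exact_mod_cast hq
    rw [h4]
    have h5 : ((d : ℝ) + 3) * n * (2 * (8 * (e ^ d * (n * e ^ d)))) = ((C * n ^ 2 : ℕ) : ℝ) := by
      rw [hC]; push_cast; ring
    rw [h5]
    exact_mod_cast h3
  have hBTcard : (BT.card : ℝ) ≤ Real.exp ((d + 1) * n) := by
    have h1 : BT.card ≤ 2 ^ (n * (d + 1)) := by
      refine (Finset.card_le_univ _).trans ?_
      simp only [Fintype.card_pi, Fintype.card_finset, Fintype.card_fin, Finset.prod_const,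
        Finset.card_univ]
      rw [← pow_mul]
    have h2 : (2 : ℝ) ≤ Real.exp 1 := by
      have := Real.add_one_le_exp (1 : ℝ)
      linarith
    calc (BT.card : ℝ) ≤ 2 ^ (n * (d + 1)) := by exact_mod_cast h1
      _ ≤ (Real.exp 1) ^ (n * (d + 1)) := pow_le_pow_left₀ (by norm_num) h2 _
      _ = Real.exp ((d + 1) * n) := by
          rw [← Real.exp_nat_mul]
          congr 1
          push_cast; ring
  calc ((Finset.univ.filter (fun ω : Fin N → Fin (q + 1) =>
      ¬ eps (arr ψ (disp e φ ω)) ≤ C * n ^ 2)).card : ℝ)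
      ≤ ∑ T ∈ BT, ((Finset.univ.filter (fun ω : Fin N → Fin (q + 1) =>
        ∀ i ∈ boxItems ψ φ T, ¬ Kept (conf e φ) ω i)).card : ℝ) := by
        exact_mod_cast (Finset.card_le_card hsub).trans Finset.card_biUnion_le
    _ ≤ ∑ _T ∈ BT, (2 * (((q : ℝ) + 1) ^ N * Real.exp (-((d + 3) * n)))) :=
        Finset.sum_le_sum hbound
    _ = BT.card * (2 * (((q : ℝ) + 1) ^ N * Real.exp (-((d + 3) * n)))) := by
        rw [Finset.sum_const, nsmul_eq_mul]
    _ ≤ Real.exp ((d + 1) * n) * (2 * (((q : ℝ) + 1) ^ N * Real.exp (-((d + 3) * n)))) := by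
        apply mul_le_mul_of_nonneg_right hBTcard (by positivity)
    _ = 2 * (Real.exp ((d + 1) * n) * Real.exp (-((d + 3) * n))) * ((q : ℝ) + 1) ^ N := by ring
    _ = _ := by
        rw [← Real.exp_add]
        congr 3
        ring

open Classical in
/-- the number of good permutations -/
theorem good_count {e : ℕ} (he : 0 < e) (hG : ∀ x : G, e • x = 0) (ψ : G ≃ Fin n) (hn : 0 < n)
    (t : ℝ) (ht : t = 7 / (64 * ((e : ℝ) ^ d * (e : ℝ) ^ d)))
    (hsmall : 2 * Real.exp (-(2 * n)) ≤ t / 4) :
    t / 4 * (n : ℝ) ^ (t / 2 * ((n : ℝ) ^ d)) / 2 ^ (n ^ d) ≤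
      ((Finset.univ.filter (fun A : (Fin (d + 1) → Fin n) → Bool =>
        IsPerm A ∧ eps A ≤ 16 * (e ^ d * e ^ d) * (d + 3) * n ^ 2)).card : ℝ) := by
  have hcardG : Fintype.card G = n := by rw [Fintype.card_congr ψ, Fintype.card_fin]
  have he' : (0 : ℝ) < e := by exact_mod_cast he
  have hn' : (0 : ℝ) < n := by exact_mod_cast hn
  have ht0 : 0 < t := by rw [ht]; positivity
  set N := Fintype.card ((Fin d → G) × G) with hN
  have hNval : N = n ^ d * n := by
    rw [hN, Fintype.card_prod, Fintype.card_pi, hcardG]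
    simp
  set φ : (Fin d → G) × G ≃ Fin N := Fintype.equivFin _ with hφ
  obtain ⟨q, hq⟩ : ∃ q, q + 1 = 8 * (e ^ d * (n * e ^ d)) := by
    refine ⟨8 * (e ^ d * (n * e ^ d)) - 1, ?_⟩
    have : 0 < e ^ d * (n * e ^ d) := by positivity
    omega
  have hq' : ((q : ℝ) + 1) = 8 * (e ^ d * (n * e ^ d)) := by exact_mod_cast hq
  have hbad := bad_count he ψ hn φ hq
  have hdeg : ∀ i, (Finset.univ.filter (fun j => conf e φ i j)).card ≤ e ^ d * (n * e ^ d) := by
    intro i
    have h2 := card_conf e φ i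
    rw [hcardG] at h2
    exact h2
  have hm : ∀ ω : Fin N → Fin (q + 1),
      (Finset.univ.filter (fun i => Kept (conf e φ) ω i)).card ≤ n ^ d := by
    intro ω
    have := kept_card he φ ω
    rw [hcardG] at this
    exact this
  have hmany := many_kept (q := q) (m := n ^ d) (D := e ^ d * (n * e ^ d)) (by omega) (conf e φ)
    hdeg (by positivity) hm t ht0.le (by
      rw [hq', hNval, ht]
      push_cast
      field_simp
      norm_num)
  set S := Finset.univ.filter (fun ω : Fin N → Fin (q + 1) =>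
        t / 2 * ((n ^ d : ℕ) : ℝ) ≤
          (Finset.univ.filter (fun i => Kept (conf e φ) ω i)).card) with hS
  set Bad := Finset.univ.filter (fun ω : Fin N → Fin (q + 1) =>
      ¬ eps (arr ψ (disp e φ ω)) ≤ 16 * (e ^ d * e ^ d) * (d + 3) * n ^ 2) with hBad
  set Good := S \ Bad with hGood
  have hGoodcard : t / 4 * ((q : ℝ) + 1) ^ N ≤ (Good.card : ℝ) := by
    have h1 : S.card ≤ Good.card + Bad.card := by
      rw [hGood]
      have := Finset.card_le_card_sdiff_add_card (s := S) (t := Bad)
      omega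
    have h2 : (S.card : ℝ) ≤ Good.card + Bad.card := by exact_mod_cast h1
    have h3 : (0 : ℝ) < ((q : ℝ) + 1) ^ N := by positivity
    have h4 := mul_le_mul_of_nonneg_right hsmall h3.le
    linarith
  have hout := outcomes (q := q) (m := n ^ d) (conf e φ) (fun ω => disp e φ ω)
    (fun x => Finset.univ.filter (fun i => x (φ.symm i).1 = (φ.symm i).2)) (by
      intro x
      have h1 : (Finset.univ.filter (fun i : Fin N => x (φ.symm i).1 = (φ.symm i).2)).card ≤
          (Finset.univ : Finset (Fin d → G)).card := by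
        apply Finset.card_le_card_of_injOn (fun i => (φ.symm i).1) (fun _ _ => Finset.mem_univ _)
        intro i hi j hj hij
        have h2 := (Finset.mem_filter.1 hi).2
        have h3 := (Finset.mem_filter.1 hj).2
        apply φ.symm.injective
        refine Prod.ext hij ?_
        simp only at hij
        rw [← h2, ← h3, hij]
      simpa [hcardG] using h1) (by
      intro ω i hi
      exact Finset.mem_filter.2 ⟨Finset.mem_univ _, kept_graph he φ hi⟩) Good
    ⌈t / 2 * ((n ^ d : ℕ) : ℝ)⌉₊ (by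
      intro ω hω
      have h1 := (Finset.mem_filter.1 (Finset.mem_sdiff.1 hω).1).2
      exact Nat.ceil_le.2 h1)
  set k := ⌈t / 2 * ((n ^ d : ℕ) : ℝ)⌉₊ with hk
  have himg : (Good.image (fun ω => disp e φ ω)).card ≤
      (Finset.univ.filter (fun A : (Fin (d + 1) → Fin n) → Bool =>
        IsPerm A ∧ eps A ≤ 16 * (e ^ d * e ^ d) * (d + 3) * n ^ 2)).card := by
    apply Finset.card_le_card_of_injOn (fun x => arr ψ x)
    · intro x hx
      obtain ⟨ω, hω, rfl⟩ := Finset.mem_image.1 (Finset.mem_coe.1 hx)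
      refine Finset.mem_coe.2 (Finset.mem_filter.2 ⟨Finset.mem_univ _, isPerm_arr he hG ψ φ ω, ?_⟩)
      have h1 := (Finset.mem_sdiff.1 hω).2
      by_contra h2
      exact h1 (Finset.mem_filter.2 ⟨Finset.mem_univ _, h2⟩)
    · exact (arr_inj ψ).injOn
  have himg' : ((Good.image (fun ω => disp e φ ω)).card : ℝ) ≤
      ((Finset.univ.filter (fun A : (Fin (d + 1) → Fin n) → Bool =>
        IsPerm A ∧ eps A ≤ 16 * (e ^ d * e ^ d) * (d + 3) * n ^ 2)).card : ℝ) := by
    exact_mod_cast himg
  have hpos : (0 : ℝ) < ((q : ℝ) + 1) ^ N := by positivity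
  have h1 : t / 4 * ((q : ℝ) + 1) ^ k ≤
      ((Good.image (fun ω => disp e φ ω)).card : ℝ) * 2 ^ (n ^ d) := by
    have h2 : t / 4 * ((q : ℝ) + 1) ^ N * ((q : ℝ) + 1) ^ k ≤
        ((Good.image (fun ω => disp e φ ω)).card : ℝ) * 2 ^ (n ^ d) * ((q : ℝ) + 1) ^ N :=
      (mul_le_mul_of_nonneg_right hGoodcard (by positivity)).trans hout
    have h3 : t / 4 * ((q : ℝ) + 1) ^ k * ((q : ℝ) + 1) ^ N ≤
        ((Good.image (fun ω => disp e φ ω)).card : ℝ) * 2 ^ (n ^ d) * ((q : ℝ) + 1) ^ N := by
      linarith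
    exact le_of_mul_le_mul_right h3 hpos
  have h2 : (n : ℝ) ^ (t / 2 * ((n : ℝ) ^ d)) ≤ ((q : ℝ) + 1) ^ k := by
    have hn1 : (1 : ℝ) ≤ n := by exact_mod_cast hn
    have hnq : (n : ℝ) ≤ (q : ℝ) + 1 := by
      have : n ≤ q + 1 := by
        rw [hq]
        have h3 : 1 ≤ e ^ d := Nat.one_le_pow _ _ he
        nlinarith [Nat.mul_le_mul h3 (Nat.mul_le_mul_left n h3)]
      exact_mod_cast this
    calc (n : ℝ) ^ (t / 2 * ((n : ℝ) ^ d)) ≤ (n : ℝ) ^ (k : ℝ) := by
          apply Real.rpow_le_rpow_of_exponent_le hn1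
          have := Nat.le_ceil (t / 2 * ((n ^ d : ℕ) : ℝ))
          push_cast at this
          rw [hk]
          push_cast
          exact this
      _ = (n : ℝ) ^ k := Real.rpow_natCast _ _
      _ ≤ ((q : ℝ) + 1) ^ k := pow_le_pow_left₀ hn'.le hnq _
  rw [div_le_iff₀ (by positivity)]
  calc t / 4 * (n : ℝ) ^ (t / 2 * ((n : ℝ) ^ d)) ≤ t / 4 * ((q : ℝ) + 1) ^ k :=
        mul_le_mul_of_nonneg_left h2 (by positivity)
    _ ≤ _ := h1
    _ ≤ _ := mul_le_mul_of_nonneg_right himg' (by positivity)

end Pool.Agent.Helper41.Perm
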