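import Mathlib

/-!
# Random selection with priorities

Each of `N` items is chosen independently with probability `1/(q+1)` (`ω i = 0`).  A chosen item
is kept if no earlier conflicting item is chosen.  Tail bound for the event that no item of a
given set `H` is kept.
-/

set_option autoImplicit false

namespace Pool.Agent.Helper41.Perm

open Finset

/-- item `i` is blocked: an earlier conflicting item is chosen -/
def Blocked {N q : ℕ} (conf : Fin N → Fin N → Prop) (ω : Fin N → Fin (q + 1)) (i : Fin N) : Prop :=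
  ∃ j, j < i ∧ conf i j ∧ ω j = 0

/-- item `i` is kept -/
def Kept {N q : ℕ} (conf : Fin N → Fin N → Prop) (ω : Fin N → Fin (q + 1)) (i : Fin N) : Prop :=
  ω i = 0 ∧ ¬ Blocked conf ω i

/-- the martingale identity -/
theorem seq_identity (q : ℕ) (hq : 0 < q) (N : ℕ)
    (U : Fin N → (Fin N → Fin (q + 1)) → Prop) [∀ i ω, Decidable (U i ω)]
    (hU : ∀ i ω ω', (∀ j, j < i → ω j = ω' j) → (U i ω ↔ U i ω')) :
    ∑ ω : Fin N → Fin (q + 1), ∏ i, (if U i ω then (if ω i = 0 then (0 : ℝ) else (q + 1) / q) else 1)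
      = ((q : ℝ) + 1) ^ N := by
  induction N with
  | zero => simp
  | succ N ih =>
    rw [← (Fin.snocEquiv (fun _ : Fin (N + 1) => Fin (q + 1))).sum_comp, Fintype.sum_prod_type,
      Finset.sum_comm]
    have h1 : ∀ ω : Fin N → Fin (q + 1), ∑ v : Fin (q + 1),
        ∏ i, (if U i ((Fin.snocEquiv (fun _ : Fin (N + 1) => Fin (q + 1))) (v, ω)) then
          (if ((Fin.snocEquiv (fun _ : Fin (N + 1) => Fin (q + 1))) (v, ω)) i = 0 then (0 : ℝ)
            else (q + 1) / q) else 1) =
        ((q : ℝ) + 1) * ∏ i : Fin N, (if U i.castSucc (Fin.snoc ω 0) then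
          (if ω i = 0 then (0 : ℝ) else (q + 1) / q) else 1) := by
      intro ω
      have h2 : ∀ v : Fin (q + 1),
          ∏ i, (if U i ((Fin.snocEquiv (fun _ : Fin (N + 1) => Fin (q + 1))) (v, ω)) then
          (if ((Fin.snocEquiv (fun _ : Fin (N + 1) => Fin (q + 1))) (v, ω)) i = 0 then (0 : ℝ)
            else (q + 1) / q) else 1) =
          (∏ i : Fin N, (if U i.castSucc (Fin.snoc ω 0) then
            (if ω i = 0 then (0 : ℝ) else (q + 1) / q) else 1)) *
          (if U (Fin.last N) (Fin.snoc ω 0) then (if v = 0 then (0 : ℝ) else (q + 1) / q)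
            else 1) := by
        intro v
        rw [Fin.prod_univ_castSucc]
        have hs : (Fin.snocEquiv (fun _ : Fin (N + 1) => Fin (q + 1))) (v, ω) =
            Fin.snoc (α := fun _ => Fin (q + 1)) ω v := rfl
        rw [hs]
        congr 1
        · refine Finset.prod_congr rfl (fun i _ => ?_)
          have h3 : U i.castSucc (Fin.snoc (α := fun _ => Fin (q + 1)) ω v) ↔
              U i.castSucc (Fin.snoc (α := fun _ => Fin (q + 1)) ω 0) := by
            apply hU
            intro j hj
            have hjN : (j : ℕ) < N := lt_trans hj i.2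
            have hj' : j = Fin.castSucc ⟨j, hjN⟩ := rfl
            rw [hj', Fin.snoc_castSucc, Fin.snoc_castSucc]
          rw [Fin.snoc_castSucc]
          simp only [h3]
        · have h3 : U (Fin.last N) (Fin.snoc (α := fun _ => Fin (q + 1)) ω v) ↔
              U (Fin.last N) (Fin.snoc (α := fun _ => Fin (q + 1)) ω 0) := by
            apply hU
            intro j hj
            have hj' : j = Fin.castSucc ⟨j, hj⟩ := rfl
            rw [hj', Fin.snoc_castSucc, Fin.snoc_castSucc]
          rw [Fin.snoc_last]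
          simp only [h3]
      rw [Finset.sum_congr rfl (fun v _ => h2 v), ← Finset.mul_sum, mul_comm]
      congr 1
      by_cases hU' : U (Fin.last N) (Fin.snoc ω 0)
      · simp only [hU', if_true]
        rw [Fin.sum_univ_succ]
        simp only [if_true, Fin.succ_ne_zero, if_false, Finset.sum_const, Finset.card_univ,
          Fintype.card_fin, nsmul_eq_mul, zero_add]
        field_simp
      · simp [hU']
    rw [Finset.sum_congr rfl (fun ω _ => h1 ω), ← Finset.mul_sum]
    have h4 := ih (fun i ω => U i.castSucc (Fin.snoc ω 0)) (by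
      intro i ω ω' h
      apply hU
      intro j hj
      have hjN : (j : ℕ) < N := lt_trans hj i.2
      have hj' : j = Fin.castSucc ⟨j, hjN⟩ := rfl
      rw [hj', Fin.snoc_castSucc, Fin.snoc_castSucc]
      exact h _ (by
        rw [hj'] at hj
        exact hj))
    rw [h4, pow_succ]
    ring

/-- exponential moment of the number of chosen items, weighted -/
theorem exp_moment (q N : ℕ) (a : Fin N → ℝ) (ha0 : ∀ j, 0 ≤ a j) (ha1 : ∀ j, a j ≤ 1) :
    ∑ ω : Fin N → Fin (q + 1), Real.exp (∑ j, if ω j = 0 then a j else 0) ≤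
      ((q : ℝ) + 1) ^ N * Real.exp (2 / (q + 1) * ∑ j, a j) := by
  have h1 : ∀ ω : Fin N → Fin (q + 1), Real.exp (∑ j, if ω j = 0 then a j else 0) =
      ∏ j, (if ω j = 0 then Real.exp (a j) else 1) := by
    intro ω
    rw [Real.exp_sum]
    refine Finset.prod_congr rfl (fun j _ => ?_)
    split_ifs <;> simp
  rw [Finset.sum_congr rfl (fun ω _ => h1 ω)]
  have h2 := (Finset.prod_univ_sum (fun _ : Fin N => (Finset.univ : Finset (Fin (q + 1))))
    (fun j v => if v = 0 then Real.exp (a j) else 1)).symm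
  rw [Fintype.piFinset_univ] at h2
  rw [h2]
  have h3 : ∀ j, ∑ v : Fin (q + 1), (if v = 0 then Real.exp (a j) else 1) ≤
      ((q : ℝ) + 1) * Real.exp (2 / (q + 1) * a j) := by
    intro j
    rw [Fin.sum_univ_succ]
    simp only [if_true, Fin.succ_ne_zero, if_false, Finset.sum_const, Finset.card_univ,
      Fintype.card_fin, nsmul_eq_mul, mul_one]
    have h4 : Real.exp (a j) ≤ 1 + 2 * a j := by
      have h5 := Real.exp_bound' (ha0 j) (ha1 j) (n := 2) (by norm_num)
      simp [Finset.sum_range_succ] at h5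
      have h6 := ha0 j
      have h7 := ha1 j
      nlinarith [mul_nonneg h6 (sub_nonneg.2 h7)]
    have h8 : 1 + 2 / ((q : ℝ) + 1) * a j ≤ Real.exp (2 / (q + 1) * a j) := by
      have := Real.add_one_le_exp (2 / ((q : ℝ) + 1) * a j)
      linarith
    have hq : (0 : ℝ) < q + 1 := by positivity
    calc Real.exp (a j) + q ≤ (q + 1) * (1 + 2 / ((q : ℝ) + 1) * a j) := by
          field_simp
          linarith
      _ ≤ _ := mul_le_mul_of_nonneg_left h8 hq.le
  calc ∏ j, ∑ v : Fin (q + 1), (if v = 0 then Real.exp (a j) else 1)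
      ≤ ∏ j, (((q : ℝ) + 1) * Real.exp (2 / (q + 1) * a j)) := by
        apply Finset.prod_le_prod
        · intro j _
          apply Finset.sum_nonneg
          intro v _
          split_ifs
          · exact (Real.exp_pos _).le
          · exact zero_le_one
        · intro j _
          exact h3 j
    _ = _ := by
        rw [Finset.prod_mul_distrib, Finset.prod_const, Finset.card_univ, Fintype.card_fin,
          ← Real.exp_sum, ← Finset.mul_sum]

theorem exp_le_ratio (q : ℕ) (hq : 0 < q) : Real.exp (1 / ((q : ℝ) + 1)) ≤ ((q : ℝ) + 1) / q := by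
  have h1 := Real.add_one_le_exp (-(1 / ((q : ℝ) + 1)))
  have hq' : (0 : ℝ) < q := by exact_mod_cast hq
  rw [Real.exp_neg] at h1
  have h2 : -(1 / ((q : ℝ) + 1)) + 1 = q / (q + 1) := by field_simp; ring
  rw [h2] at h1
  have h3 : (0 : ℝ) < q / (q + 1) := by positivity
  have h4 := inv_anti₀ h3 h1
  rw [inv_inv, inv_div] at h4
  exact h4

open Classical in
theorem tail_one {N q : ℕ} (hq : 0 < q) (conf : Fin N → Fin N → Prop) (H : Finset (Fin N)) :
    ((Finset.univ.filter (fun ω : Fin N → Fin (q + 1) => (∀ i ∈ H, ¬ Kept conf ω i) ∧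
      2 * (H.filter (fun i => Blocked conf ω i)).card ≤ H.card)).card : ℝ) ≤
      ((q : ℝ) + 1) ^ N * Real.exp (-((H.card : ℝ) / (2 * (q + 1)))) := by
  set A := Finset.univ.filter (fun ω : Fin N → Fin (q + 1) => (∀ i ∈ H, ¬ Kept conf ω i) ∧
      2 * (H.filter (fun i => Blocked conf ω i)).card ≤ H.card) with hA
  have hid := seq_identity q hq N (fun i ω => i ∈ H ∧ ¬ Blocked conf ω i) (by
    intro i ω ω' h
    have : Blocked conf ω i ↔ Blocked conf ω' i := by
      unfold Blocked
      constructor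
      · rintro ⟨j, hj, hc, h0⟩
        exact ⟨j, hj, hc, by rw [← h j hj]; exact h0⟩
      · rintro ⟨j, hj, hc, h0⟩
        exact ⟨j, hj, hc, by rw [h j hj]; exact h0⟩
    rw [this])
  have hq' : (0 : ℝ) < q := by exact_mod_cast hq
  have h1 : ∀ ω ∈ A, Real.exp ((H.card : ℝ) / (2 * (q + 1))) ≤
      ∏ i, (if i ∈ H ∧ ¬ Blocked conf ω i then (if ω i = 0 then (0 : ℝ) else (q + 1) / q)
        else 1) := by
    intro ω hω
    rw [hA, Finset.mem_filter] at hω
    obtain ⟨-, hk, hb⟩ := hω
    have h2 : ∀ i, (if i ∈ H ∧ ¬ Blocked conf ω i then (if ω i = 0 then (0 : ℝ) else (q + 1) / q)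
        else 1) = if i ∈ H.filter (fun i => ¬ Blocked conf ω i) then ((q : ℝ) + 1) / q else 1 := by
      intro i
      by_cases hi : i ∈ H ∧ ¬ Blocked conf ω i
      · rw [if_pos hi, if_pos (Finset.mem_filter.2 hi), if_neg]
        intro h0
        exact hk i hi.1 ⟨h0, hi.2⟩
      · rw [if_neg hi, if_neg (fun h => hi (Finset.mem_filter.1 h))]
    rw [Finset.prod_congr rfl (fun i _ => h2 i), Finset.prod_ite_mem, Finset.univ_inter,
      Finset.prod_const]
    have h3 : H.card ≤ 2 * (H.filter (fun i => ¬ Blocked conf ω i)).card := by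
      have := Finset.card_filter_add_card_filter_not (s := H) (fun i => Blocked conf ω i)
      omega
    calc Real.exp ((H.card : ℝ) / (2 * (q + 1)))
        ≤ Real.exp (((H.filter (fun i => ¬ Blocked conf ω i)).card : ℝ) * (1 / (q + 1))) := by
          apply Real.exp_le_exp.2
          have h4 : (H.card : ℝ) ≤ 2 * ((H.filter (fun i => ¬ Blocked conf ω i)).card : ℝ) := by
            exact_mod_cast h3
          rw [div_le_iff₀ (by positivity)]
          field_simp
          linarith
      _ = (Real.exp (1 / ((q : ℝ) + 1))) ^ (H.filter (fun i => ¬ Blocked conf ω i)).card := by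
          rw [← Real.exp_nat_mul]
      _ ≤ _ := pow_le_pow_left₀ (Real.exp_pos _).le (exp_le_ratio q hq) _
  have h2 : (A.card : ℝ) * Real.exp ((H.card : ℝ) / (2 * (q + 1))) ≤ ((q : ℝ) + 1) ^ N := by
    rw [← hid, ← nsmul_eq_mul, ← Finset.sum_const]
    calc ∑ _ω ∈ A, Real.exp ((H.card : ℝ) / (2 * (q + 1)))
        ≤ ∑ ω ∈ A, ∏ i, (if i ∈ H ∧ ¬ Blocked conf ω i then
          (if ω i = 0 then (0 : ℝ) else (q + 1) / q) else 1) := Finset.sum_le_sum h1
      _ ≤ _ := by
        apply Finset.sum_le_sum_of_subset_of_nonneg (Finset.subset_univ _)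
        intro ω _ _
        apply Finset.prod_nonneg
        intro i _
        split_ifs <;> positivity
  rw [Real.exp_neg, ← div_eq_mul_inv, le_div_iff₀ (Real.exp_pos _)]
  exact h2

open Classical in
theorem tail_two {N q D : ℕ} (hD0 : 0 < D) (hD : 8 * D ≤ q + 1) (conf : Fin N → Fin N → Prop)
    (H : Finset (Fin N)) (hD1 : ∀ j, (H.filter (fun i => conf i j)).card ≤ D)
    (hD2 : ∀ i, (Finset.univ.filter (fun j => conf i j)).card ≤ D) :
    ((Finset.univ.filter (fun ω : Fin N → Fin (q + 1) =>
      H.card < 2 * (H.filter (fun i => Blocked conf ω i)).card)).card : ℝ) ≤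
      ((q : ℝ) + 1) ^ N * Real.exp (-((H.card : ℝ) / (2 * (q + 1)))) := by
  set A := Finset.univ.filter (fun ω : Fin N → Fin (q + 1) =>
      H.card < 2 * (H.filter (fun i => Blocked conf ω i)).card) with hA
  have hD0' : (0 : ℝ) < D := by exact_mod_cast hD0
  set a : Fin N → ℝ := fun j => ((H.filter (fun i => conf i j)).card : ℝ) / D with ha
  have hm := exp_moment q N a (fun j => by positivity) (fun j => by
    rw [ha]
    simp only
    rw [div_le_one hD0']
    exact_mod_cast hD1 j)
  have hsum : ∑ j, a j ≤ H.card := by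
    rw [ha]
    simp only
    rw [← Finset.sum_div, div_le_iff₀ hD0']
    have h1 : ∑ j, ((H.filter (fun i => conf i j)).card : ℝ) =
        ∑ i ∈ H, ((Finset.univ.filter (fun j => conf i j)).card : ℝ) := by
      simp only [Finset.card_filter]
      push_cast
      rw [Finset.sum_comm]
    rw [h1, ← nsmul_eq_mul]
    apply Finset.sum_le_card_nsmul
    intro i _
    exact_mod_cast hD2 i
  have h1 : ∀ ω ∈ A, Real.exp ((H.card : ℝ) / (2 * D)) ≤
      Real.exp (∑ j, if ω j = 0 then a j else 0) := by
    intro ω hω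
    rw [hA, Finset.mem_filter] at hω
    apply Real.exp_le_exp.2
    have h2 : ((H.filter (fun i => Blocked conf ω i)).card : ℝ) ≤
        ∑ j, if ω j = 0 then ((H.filter (fun i => conf i j)).card : ℝ) else 0 := by
      have h3 : H.filter (fun i => Blocked conf ω i) ⊆
          (Finset.univ.filter (fun j => ω j = 0)).biUnion
            (fun j => H.filter (fun i => conf i j)) := by
        intro i hi
        rw [Finset.mem_filter] at hi
        obtain ⟨hiH, j, -, hc, h0⟩ := hi
        rw [Finset.mem_biUnion]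
        exact ⟨j, Finset.mem_filter.2 ⟨Finset.mem_univ _, h0⟩, Finset.mem_filter.2 ⟨hiH, hc⟩⟩
      have h4 := (Finset.card_le_card h3).trans Finset.card_biUnion_le
      rw [← Finset.sum_filter]
      exact_mod_cast h4
    have h5 : (∑ j, if ω j = 0 then a j else 0) =
        (∑ j, if ω j = 0 then ((H.filter (fun i => conf i j)).card : ℝ) else 0) / D := by
      rw [Finset.sum_div]
      refine Finset.sum_congr rfl (fun j _ => ?_)
      split_ifs <;> simp [ha]
    rw [h5, div_le_div_iff₀ (by positivity) hD0']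
    have h6 : (H.card : ℝ) ≤ 2 * ((H.filter (fun i => Blocked conf ω i)).card : ℝ) := by
      exact_mod_cast hω.2.le
    nlinarith
  have h2 : (A.card : ℝ) * Real.exp ((H.card : ℝ) / (2 * D)) ≤
      ((q : ℝ) + 1) ^ N * Real.exp (2 / (q + 1) * H.card) := by
    calc (A.card : ℝ) * Real.exp ((H.card : ℝ) / (2 * D))
        = ∑ _ω ∈ A, Real.exp ((H.card : ℝ) / (2 * D)) := by
          rw [Finset.sum_const, nsmul_eq_mul]
      _ ≤ ∑ ω ∈ A, Real.exp (∑ j, if ω j = 0 then a j else 0) := Finset.sum_le_sum h1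
      _ ≤ ∑ ω : Fin N → Fin (q + 1), Real.exp (∑ j, if ω j = 0 then a j else 0) :=
          Finset.sum_le_sum_of_subset_of_nonneg (Finset.subset_univ _)
            (fun _ _ _ => (Real.exp_pos _).le)
      _ ≤ _ := hm
      _ ≤ _ := by
          apply mul_le_mul_of_nonneg_left _ (by positivity)
          apply Real.exp_le_exp.2
          exact mul_le_mul_of_nonneg_left hsum (by positivity)
  have h3 : (A.card : ℝ) ≤ ((q : ℝ) + 1) ^ N *
      Real.exp (2 / (q + 1) * H.card - (H.card : ℝ) / (2 * D)) := by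
    rw [Real.exp_sub, ← mul_div_assoc, le_div_iff₀ (Real.exp_pos _)]
    exact h2
  refine h3.trans (mul_le_mul_of_nonneg_left (Real.exp_le_exp.2 ?_) (by positivity))
  have h4 : (8 : ℝ) * D ≤ q + 1 := by exact_mod_cast hD
  have h5 : (0 : ℝ) ≤ H.card := by positivity
  have h6 : 4 / ((q : ℝ) + 1) ≤ 1 / (2 * D) := by
    rw [div_le_div_iff₀ (by positivity) (by positivity)]
    linarith
  have h7 : (H.card : ℝ) / (2 * D) = H.card * (1 / (2 * D)) := by ring
  have h8 : (H.card : ℝ) / (2 * (q + 1)) = H.card * (1 / 2 * (1 / (q + 1))) := by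
    field_simp
  have h9 : (0 : ℝ) ≤ 1 / ((q : ℝ) + 1) := by positivity
  have h10 : 2 / ((q : ℝ) + 1) = 2 * (1 / (q + 1)) := by ring
  have h11 : 4 / ((q : ℝ) + 1) = 4 * (1 / (q + 1)) := by ring
  rw [h7, h8, h10]
  rw [h11] at h6
  nlinarith [mul_le_mul_of_nonneg_left h6 h5, mul_nonneg h5 h9]

open Classical in
/-- the tail bound -/
theorem tail {N q D : ℕ} (hD0 : 0 < D) (hD : 8 * D ≤ q + 1) (conf : Fin N → Fin N → Prop)
    (H : Finset (Fin N)) (hD1 : ∀ j, (H.filter (fun i => conf i j)).card ≤ D)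
    (hD2 : ∀ i, (Finset.univ.filter (fun j => conf i j)).card ≤ D) :
    ((Finset.univ.filter (fun ω : Fin N → Fin (q + 1) => ∀ i ∈ H, ¬ Kept conf ω i)).card : ℝ) ≤
      2 * (((q : ℝ) + 1) ^ N * Real.exp (-((H.card : ℝ) / (2 * (q + 1))))) := by
  have h1 := tail_one (q := q) (by omega) conf H
  have h2 := tail_two hD0 hD conf H hD1 hD2
  have h3 : Finset.univ.filter (fun ω : Fin N → Fin (q + 1) => ∀ i ∈ H, ¬ Kept conf ω i) ⊆
      Finset.univ.filter (fun ω : Fin N → Fin (q + 1) => (∀ i ∈ H, ¬ Kept conf ω i) ∧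
        2 * (H.filter (fun i => Blocked conf ω i)).card ≤ H.card) ∪
      Finset.univ.filter (fun ω : Fin N → Fin (q + 1) =>
        H.card < 2 * (H.filter (fun i => Blocked conf ω i)).card) := by
    intro ω hω
    rw [Finset.mem_filter] at hω
    rw [Finset.mem_union, Finset.mem_filter, Finset.mem_filter]
    by_cases h : 2 * (H.filter (fun i => Blocked conf ω i)).card ≤ H.card
    · exact Or.inl ⟨Finset.mem_univ _, hω.2, h⟩
    · exact Or.inr ⟨Finset.mem_univ _, not_le.1 h⟩
  have h4 : ((Finset.univ.filter (fun ω : Fin N → Fin (q + 1) =>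
      ∀ i ∈ H, ¬ Kept conf ω i)).card : ℝ) ≤
      ((Finset.univ.filter (fun ω : Fin N → Fin (q + 1) => (∀ i ∈ H, ¬ Kept conf ω i) ∧
        2 * (H.filter (fun i => Blocked conf ω i)).card ≤ H.card)).card : ℝ) +
      ((Finset.univ.filter (fun ω : Fin N → Fin (q + 1) =>
        H.card < 2 * (H.filter (fun i => Blocked conf ω i)).card)).card : ℝ) := by
    exact_mod_cast (Finset.card_le_card h3).trans (Finset.card_union_le _ _)
  linarith

end Pool.Agent.Helper41.Perm
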